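import Pool.Agent.Y302.AH.Final

/-!
# Almost Hadamard matrices of every large order

For every large `n` there is an `n × n` matrix `M` with entries `1` and `-1` such that
`| ‖M x‖ - √n ‖x‖ | ≤ n ^ (1/4) log n ‖x‖` for all real vectors `x`: all singular values of `M` are
`√n (1 + O(n ^ (-1/4) log n))`. (For a Hadamard matrix all singular values are `√n`.)

Proof.  There is a Hadamard matrix `H` of order `N = n + r` with `r ≤ log log n` (starting file
`MP_d8b1b3_co/LogStarExistence`). Let `M, C, R, D` be its blocks, `M` of order `n`. The identity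
`Hᵀ H = N I` shows that `A = M + N ^ (-1/2) C R` is almost `√N` times an isometry, with an error `O(r)`.
The matrix `(1 - r / √N) M + N ^ (-1/2) C R` has its entries in `[-1, 1]` and within `2 r / √N` of `1` or
`-1`; random rounding of its entries to signs costs `n ^ (1/4) log n` in the operator norm, by the
Golden-Thompson inequality (method of Ahlswede and Winter).
-/

namespace Pool.Agent.Results.MP_d8b1b3_co.ApproximateIsometry

theorem result : ∃ n₀ : ℕ, ∀ n : ℕ, n₀ ≤ n → ∃ M : Matrix (Fin n) (Fin n) ℝ,
    (∀ i j, M i j = 1 ∨ M i j = -1) ∧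
    ∀ x : Fin n → ℝ,
      |Real.sqrt (∑ i, (M.mulVec x i) ^ 2) - Real.sqrt n * Real.sqrt (∑ i, x i ^ 2)| ≤
        (n : ℝ) ^ (1 / 4 : ℝ) * Real.log n * Real.sqrt (∑ i, x i ^ 2) :=
  Pool.Agent.Y302.AH.final

end Pool.Agent.Results.MP_d8b1b3_co.ApproximateIsometry
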