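import Pool.Agent.Y342.SK.Sym

/-!
# Hadamard matrices of order `4 v ^ 2` for all `v = -1` modulo a large power of two

There is a constant `C` such that for all natural numbers `n`, `v`, `t` with `v ^ 2 ≤ 2 ↑↑ n` (the
power tower of `n` twos, `1` for `n = 0`), `t ≥ 2 ^ C ^ (n + 1)` and `2 ^ t ∣ v + 1` there is a
Hadamard matrix of order `4 v ^ 2`. No primality is assumed: for every odd `q` and all large `t` the
number `v = 2 ^ t * q - 1` is allowed.

A skew-Hadamard matrix of order `v + 1` (from the asymptotic existence theorem for skew-Hadamard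
matrices, `Pool.Agent.Y342.SK.main_skew`) has a skew core of order `v`; it gives a symmetric core of
order `w = v ^ 2`, and this together with a Hadamard matrix of order `w - 1` (from the `log*`
theorem of the starting files) gives a Hadamard matrix of order `4 w` (Miyamoto's construction).
-/

namespace Pool.Agent.Results.MP_d8b1b3_co.FourSquareOrders

theorem result : ∃ C : ℕ, ∀ n v t : ℕ, v ^ 2 ≤ (fun x : ℕ => 2 ^ x)^[n] 1 →
    2 ^ C ^ (n + 1) ≤ t → 2 ^ t ∣ v + 1 →
    ∃ H : Matrix (Fin (4 * v ^ 2)) (Fin (4 * v ^ 2)) ℤ,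
      (∀ i k, H i k = 1 ∨ H i k = -1) ∧
      H * H.transpose = ((4 * v ^ 2 : ℕ) : ℤ) •
        (1 : Matrix (Fin (4 * v ^ 2)) (Fin (4 * v ^ 2)) ℤ) := by
  obtain ⟨C, _, h⟩ := Pool.Agent.Y342.SK.main_four
  exact ⟨C, fun n v t hv ht hd => h n v t 0 hv ht hd⟩

end Pool.Agent.Results.MP_d8b1b3_co.FourSquareOrders
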