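import Pool.Agent.Y342.PH.Final

/-!
# Half Hadamard matrices, unconditionally

For every `A` and every large `n` divisible by four there is a sign matrix with `n` columns and at least
`n / 2 - n / (log n) ^ A` pairwise orthogonal rows.

Proof.  Let `T = C ^ (1 + log* n)`, so that every multiple of `2 ^ T` up to `n` is the order of a
Hadamard matrix (starting file `MP_d8b1b3_co/LogStarExistence`).  By the Siegel-Walfisz theorem for the
moduli `2 ^ T` there is a prime `p` just below `n / 2` with `p ≡ n - 1` modulo `2 ^ T`.  Then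
`b = p + 1` is the order of a Paley matrix and `a = n - b` is a multiple of `2 ^ T`.  So `n` is the sum
of two nearly equal orders of Hadamard matrices, and the rows of the two matrices are put side by side.
-/

namespace Pool.Agent.Results.MP_d8b1b3_co.HalfHadamard

/-- For every `A` there is `n₀` such that for all `n ≥ n₀` divisible by four there are a number
`r ≥ n / 2 - n / (log n) ^ A` and an `r × n` matrix `M` with entries `1` and `-1` and `M Mᵀ = n I`. -/
theorem result (A : ℕ) : ∃ n₀ : ℕ, ∀ n : ℕ, n₀ ≤ n → 4 ∣ n → ∃ r : ℕ,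
    (n : ℝ) / 2 - n / Real.log n ^ A ≤ r ∧
    ∃ M : Matrix (Fin r) (Fin n) ℤ, (∀ i j, M i j = 1 ∨ M i j = -1) ∧
      M * M.transpose = (n : ℤ) • (1 : Matrix (Fin r) (Fin r) ℤ) :=
  Pool.Agent.Y342.PH.half A

end Pool.Agent.Results.MP_d8b1b3_co.HalfHadamard
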