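import Pool.Agent.Y342.SK.Main

/-!
# Asymptotic existence of skew-Hadamard matrices

There is a constant `C` such that for all natural numbers `n`, `q > 0`, `t` with `q ≤ 2 ↑↑ n` (the
power tower of `n` twos, `1` for `n = 0`) and `t ≥ 2 ^ C ^ (n + 1)` there is a skew-Hadamard matrix of
order `2 ^ t * q`, that is, a Hadamard matrix `H` with `H + Hᵀ = 2 I`.
-/

namespace Pool.Agent.Results.MP_d8b1b3_co.SkewAsymptotics

theorem result : ∃ C : ℕ, ∀ n q t : ℕ, 0 < q → q ≤ (fun x : ℕ => 2 ^ x)^[n] 1 →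
    2 ^ C ^ (n + 1) ≤ t →
    ∃ H : Matrix (Fin (2 ^ t * q)) (Fin (2 ^ t * q)) ℤ,
      (∀ i k, H i k = 1 ∨ H i k = -1) ∧
      H * H.transpose =
        ((2 ^ t * q : ℕ) : ℤ) • (1 : Matrix (Fin (2 ^ t * q)) (Fin (2 ^ t * q)) ℤ) ∧
      H + H.transpose = (2 : ℤ) • (1 : Matrix (Fin (2 ^ t * q)) (Fin (2 ^ t * q)) ℤ) := by
  obtain ⟨C, _, h⟩ := Pool.Agent.Y342.SK.main_skew
  refine ⟨C, fun n q t hq hqn ht => ?_⟩
  obtain ⟨H, h1, h2, h3⟩ := (h n q t hq hqn ht).had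
  exact ⟨H, h1, h3, h2⟩

end Pool.Agent.Results.MP_d8b1b3_co.SkewAsymptotics
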